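import Pool.Agent.helper13.RF.Spec1

set_option autoImplicit false

open NumberField
open scoped nonZeroDivisors

namespace Pool.Agent.RF

lemma CT5_char {A : Type} [CommGroup A] [Finite A] (H : Subgroup A) (hH : H.index = 5) :
    ∃ χ : A →* ℂˣ, χ.ker = H ∧ χ ^ 5 = 1 ∧ χ ≠ 1 := by
  have hp : Fact (Nat.Prime 5) := ⟨by norm_num⟩
  have hcard : Nat.card (A ⧸ H) = 5 := hH
  have hnt : Nontrivial (A ⧸ H) := by
    rw [← Finite.one_lt_card_iff_nontrivial, hcard]
    norm_num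
  obtain ⟨a, ha⟩ := exists_ne (1 : A ⧸ H)
  obtain ⟨ψ, hψ⟩ := CommGroup.exists_apply_ne_one_of_hasEnoughRootsOfUnity (A ⧸ H) ℂ ha
  have hker : ψ.ker = ⊥ := by
    rcases Subgroup.eq_bot_or_eq_top_of_prime_card ψ.ker (hp := by rw [hcard]; exact hp) with h | h
    · exact h
    · exact absurd (by
        have : a ∈ ψ.ker := by rw [h]; exact Subgroup.mem_top a
        exact this) hψ
  refine ⟨ψ.comp (QuotientGroup.mk' H), ?_, ?_, ?_⟩
  · rw [← MonoidHom.comap_ker, hker, MonoidHom.comap_bot, QuotientGroup.ker_mk']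
  · ext x
    have h1 : (QuotientGroup.mk' H x) ^ 5 = 1 := by
      rw [← hcard]
      exact pow_card_eq_one'
    rw [MonoidHom.pow_apply, MonoidHom.comp_apply, ← map_pow, h1, map_one, MonoidHom.one_apply]
  · intro h
    obtain ⟨x, hx⟩ := QuotientGroup.mk'_surjective H a
    apply hψ
    have h1 := DFunLike.congr_fun h x
    rw [MonoidHom.comp_apply, hx, MonoidHom.one_apply] at h1
    exact h1

lemma CT5_ker {A : Type} [CommGroup A] (χ : A →* ℂˣ) (h5 : χ ^ 5 = 1) (i : Fin 4) :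
    (χ ^ ((i : ℕ) + 1)).ker = χ.ker := by
  ext x
  rw [MonoidHom.mem_ker, MonoidHom.mem_ker, MonoidHom.pow_apply]
  have hx5 : (χ x) ^ 5 = 1 := by
    have := DFunLike.congr_fun h5 x
    rwa [MonoidHom.pow_apply, MonoidHom.one_apply] at this
  constructor
  · intro h
    have h1 := pow_gcd_eq_one.2 ⟨h, hx5⟩
    have h2 : Nat.gcd ((i : ℕ) + 1) 5 = 1 := by
      fin_cases i <;> rfl
    rw [h2, pow_one] at h1
    exact h1
  · intro h
    rw [h, one_pow]

lemma CT5_inj {A : Type} [CommGroup A] (χ : A →* ℂˣ) (h5 : χ ^ 5 = 1) (h1 : χ ≠ 1) (i j : Fin 4)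
    (h : χ ^ ((i : ℕ) + 1) = χ ^ ((j : ℕ) + 1)) : i = j := by
  have hp : Fact (Nat.Prime 5) := ⟨by norm_num⟩
  have hord : orderOf χ = 5 := orderOf_eq_prime h5 h1
  have h2 := pow_injOn_Iio_orderOf (x := χ) (by rw [hord]; simp only [Set.mem_Iio]; omega)
    (by rw [hord]; simp only [Set.mem_Iio]; omega) h
  exact Fin.ext (by omega)

theorem CT5 : CT5_stmt := by
  classical
  intro A _ _ B _ f hf h4
  obtain ⟨e⟩ := CommGroup.monoidHom_mulEquiv_of_hasEnoughRootsOfUnity A ℂ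
  have hχ : ∀ b : B, ∃ χ : A →* ℂˣ, χ.ker = f b ∧ χ ^ 5 = 1 ∧ χ ≠ 1 := fun b => CT5_char (f b) (hf b)
  have hχH : ∀ H : Subgroup A, ∃ χ : A →* ℂˣ, H.index = 5 → (χ.ker = H ∧ χ ^ 5 = 1 ∧ χ ≠ 1) := by
    intro H
    by_cases h : H.index = 5
    · obtain ⟨χ, h1⟩ := CT5_char H h
      exact ⟨χ, fun _ => h1⟩
    · exact ⟨1, fun h1 => absurd h1 h⟩
  choose χ hχ' using hχH
  have hg : ∀ H : Subgroup A, ∃ g : {b' : B // f b' = H} → Fin 4, Function.Injective g := by
    intro H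
    have hc : Nat.card {b' : B // f b' = H} ≤ 4 := by
      by_cases hne : Nonempty {b' : B // f b' = H}
      · obtain ⟨b, hb⟩ := hne
        have := h4 b
        rwa [hb] at this
      · rw [not_nonempty_iff] at hne
        rw [Nat.card_of_isEmpty]
        omega
    have := Fintype.ofFinite {b' : B // f b' = H}
    rw [Nat.card_eq_fintype_card] at hc
    obtain ⟨g⟩ := Function.Embedding.nonempty_of_card_le
      (α := {b' : B // f b' = H}) (β := Fin 4) (by rw [Fintype.card_fin]; exact hc)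
    exact ⟨g, g.injective⟩
  choose g hginj using hg
  have hidx : ∀ b b' : B, f b = f b' → g (f b) ⟨b, rfl⟩ = g (f b') ⟨b', rfl⟩ → b = b' := by
    intro b b' h h1
    have h2 : ∀ (H : Subgroup A) (hH : f b' = H), g (f b') ⟨b', rfl⟩ = g H ⟨b', hH⟩ := by
      rintro _ rfl
      rfl
    rw [h2 (f b) h.symm] at h1
    exact congrArg Subtype.val (hginj (f b) h1)
  let F : Option B → {a : A // a ^ 5 = 1} := fun o => match o with
    | none => ⟨1, one_pow 5⟩
    | some b => ⟨e ((χ (f b)) ^ ((g (f b) ⟨b, rfl⟩ : ℕ) + 1)), by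
        rw [← map_pow, ← pow_mul, mul_comm, pow_mul, (hχ' (f b) (hf b)).2.1, one_pow, map_one]⟩
  have hker : ∀ b : B, ((χ (f b)) ^ ((g (f b) ⟨b, rfl⟩ : ℕ) + 1)).ker = f b := by
    intro b
    rw [CT5_ker _ (hχ' (f b) (hf b)).2.1, (hχ' (f b) (hf b)).1]
  have hne : ∀ b : B, (χ (f b)) ^ ((g (f b) ⟨b, rfl⟩ : ℕ) + 1) ≠ 1 := by
    intro b h
    have h1 := hker b
    rw [h] at h1
    have h2 := hf b
    rw [← h1] at h2
    have h3 : (1 : A →* ℂˣ).ker = ⊤ := MonoidHom.ker_one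
    rw [h3, Subgroup.index_top] at h2
    omega
  have hF : Function.Injective F := by
    intro o o' h
    have hv := congrArg Subtype.val h
    rcases o with _ | b <;> rcases o' with _ | b'
    · rfl
    · exfalso
      have h1 : (1 : A) = e ((χ (f b')) ^ ((g (f b') ⟨b', rfl⟩ : ℕ) + 1)) := hv
      rw [← map_one e] at h1
      exact hne b' (e.injective h1).symm
    · exfalso
      have h1 : e ((χ (f b)) ^ ((g (f b) ⟨b, rfl⟩ : ℕ) + 1)) = (1 : A) := hv
      rw [← map_one e] at h1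
      exact hne b (e.injective h1)
    · have h1 : e ((χ (f b)) ^ ((g (f b) ⟨b, rfl⟩ : ℕ) + 1)) =
        e ((χ (f b')) ^ ((g (f b') ⟨b', rfl⟩ : ℕ) + 1)) := hv
      have h2 := e.injective h1
      have h3 : f b = f b' := by rw [← hker b, ← hker b', h2]
      have h4 : g (f b) ⟨b, rfl⟩ = g (f b') ⟨b', rfl⟩ := by
        have h5 : χ (f b) = χ (f b') := by rw [h3]
        rw [← h5] at h2
        exact CT5_inj _ (hχ' (f b) (hf b)).2.1 (hχ' (f b) (hf b)).2.2 _ _ h2
      rw [hidx b b' h3 h4]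
  have := Nat.card_le_card_of_injective F hF
  rwa [Finite.card_option] at this

end Pool.Agent.RF
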