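import Pool.Agent.helper13.RF.Spec1

set_option autoImplicit false

open NumberField
open scoped nonZeroDivisors

namespace Pool.Agent.RF

lemma CY5_add1 {A : Type} [AddCommGroup A] (a0 a1 a2 a3 a4 : A) (h : a0 + a1 + a2 + a3 + a4 = 0) :
    (((a4 - a3) - (a3 - a2)) - ((a3 - a2) - (a2 - a1))) -
      (((a3 - a2) - (a2 - a1)) - ((a2 - a1) - (a1 - a0))) = 5 • (a2 - (a1 + a3)) := by
  have h4 : a4 = -(a0 + a1 + a2 + a3) := (neg_eq_of_add_eq_zero_right h).symm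
  rw [h4]
  abel

lemma CY5_add2 {A : Type} [AddCommGroup A] (a0 a1 a2 a3 a4 : A) (h : a0 + a1 + a2 + a3 + a4 = 0) :
    (-(a4 + (a3 + a3) + (a2 + a2) + a1)) -
      ((-(a3 + (a2 + a2) + (a1 + a1) + a0)) + (-(a0 + (a4 + a4) + (a3 + a3) + a2))) = a0 := by
  have h4 : a4 = -(a0 + a1 + a2 + a3) := (neg_eq_of_add_eq_zero_right h).symm
  rw [h4]
  abel

lemma CY5_mul1 {Z : Type} [CommGroup Z] (a0 a1 a2 a3 a4 : Z) (h : a0 * a1 * a2 * a3 * a4 = 1) :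
    (((a4 / a3) / (a3 / a2)) / ((a3 / a2) / (a2 / a1))) /
      (((a3 / a2) / (a2 / a1)) / ((a2 / a1) / (a1 / a0))) = (a2 / (a1 * a3)) ^ 5 :=
  CY5_add1 (A := Additive Z) a0 a1 a2 a3 a4 h

lemma CY5_mul2 {Z : Type} [CommGroup Z] (a0 a1 a2 a3 a4 : Z) (h : a0 * a1 * a2 * a3 * a4 = 1) :
    (a4 * (a3 * a3) * (a2 * a2) * a1)⁻¹ /
      ((a3 * (a2 * a2) * (a1 * a1) * a0)⁻¹ * (a0 * (a4 * a4) * (a3 * a3) * a2)⁻¹) = a0 :=
  CY5_add2 (A := Additive Z) a0 a1 a2 a3 a4 h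

theorem CY5 : CY5_stmt := by
  intro Z _ σ hN h5
  set δ : Z →* Z := df σ with hδ
  have hδa : ∀ z, δ z = σ z / z := fun z => rfl
  have hnm : ∀ z, z * σ z * σ (σ z) * σ (σ (σ z)) * σ (σ (σ (σ z))) = 1 := hN
  -- σ ^ 5 = 1
  have hσ5 : ∀ z, σ (σ (σ (σ (σ z)))) = z := by
    intro z
    have h1 := hnm z
    have h2 := hnm (σ z)
    have h3 : z * (σ z * σ (σ z) * σ (σ (σ z)) * σ (σ (σ (σ z)))) = 1 := by
      rw [← h1]; simp only [mul_assoc]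
    have h4 : σ (σ (σ (σ (σ z)))) * (σ z * σ (σ z) * σ (σ (σ z)) * σ (σ (σ (σ z)))) = 1 := by
      rw [mul_comm, ← h2]
    exact mul_right_cancel (h4.trans h3.symm)
  have hinj : Function.Injective δ := by
    rw [injective_iff_map_eq_one]
    intro z hz
    rw [hδa, div_eq_one] at hz
    apply h5 z
    have h1 := hnm z
    rw [hz, hz, hz, hz] at h1
    rw [← h1]
    simp only [pow_succ, pow_zero, one_mul]
  -- the fourth power
  have h4 : ∀ z, δ (δ (δ (δ z))) = (σ (σ z) / (σ z * σ (σ (σ z)))) ^ 5 := by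
    intro z
    rw [← CY5_mul1 z (σ z) (σ (σ z)) (σ (σ (σ z))) (σ (σ (σ (σ z)))) (hnm z)]
    simp only [hδa, map_div]
  have hw : ∀ z, ∃ y, σ (σ y) / (σ y * σ (σ (σ y))) = z := by
    intro z
    refine ⟨(σ (σ (σ (σ z))) * σ (σ z) * (σ z * σ z) * (z * z))⁻¹, ?_⟩
    refine Eq.trans ?_ (CY5_mul2 z (σ z) (σ (σ z)) (σ (σ (σ z))) (σ (σ (σ (σ z)))) (hnm z))
    simp only [map_inv, map_mul, hσ5]
    generalize σ (σ (σ (σ z))) = a4
    generalize σ (σ (σ z)) = a3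
    generalize σ (σ z) = a2
    generalize σ z = a1
    have e1 : a1 * a4 * (a3 * a3) * (a2 * a2) = a4 * (a3 * a3) * (a2 * a2) * a1 := by ac_rfl
    have e2 : z * a3 * (a2 * a2) * (a1 * a1) = a3 * (a2 * a2) * (a1 * a1) * z := by ac_rfl
    have e3 : a2 * z * (a4 * a4) * (a3 * a3) = z * (a4 * a4) * (a3 * a3) * a2 := by ac_rfl
    rw [e1, e2, e3]
  have hrange : (((δ.range.map δ).map δ).map δ) = (powMonoidHom 5 : Z →* Z).range := by
    ext x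
    simp only [Subgroup.mem_map, MonoidHom.mem_range, powMonoidHom_apply]
    constructor
    · rintro ⟨_, ⟨_, ⟨_, ⟨z, rfl⟩, rfl⟩, rfl⟩, rfl⟩
      exact ⟨_, (h4 z).symm⟩
    · rintro ⟨y, rfl⟩
      obtain ⟨z, rfl⟩ := hw y
      exact ⟨_, ⟨_, ⟨_, ⟨z, rfl⟩, rfl⟩, rfl⟩, h4 z⟩
  rw [← hrange, Subgroup.index_map_of_injective _ hinj, Subgroup.index_map_of_injective _ hinj,
    Subgroup.index_map_of_injective _ hinj]
  ring

end Pool.Agent.RF
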