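import Pool.Agent.helper60.RF.SpecB

set_option autoImplicit false

namespace Pool.Agent.RF

open NumberField

lemma YDV_ph1 : ph * (ph - 1) = 1 := by
  rfl

lemma YDV_ph2 : star (ph - 1) * (ph - 1) = -1 := by
  rfl

lemma YDV_gcd (p : Pt) (l : ℕ) (h : (l : OO) ∣ p.n) : l ∣ ct p := by
  obtain ⟨c, hc⟩ := h
  unfold ct
  rw [hc]
  refine Int.dvd_gcd ⟨c.re, ?_⟩ ⟨c.im, ?_⟩ <;> simp

lemma YDV_cop (hOCP : OCP_stmt) (p : Pt) (hp : IsPt p) (D₀ : ℤ) (f : ℕ)
    (hD : p.D = D₀ * (f : ℤ) ^ 2) (l : ℕ) (hl : l.Prime) (hlf : l ∣ f) (hg : ¬ l ∣ ct p) :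
    IsCoprime (l : OO) p.n ∧ IsCoprime (l : OO) (star p.n) := by
  have h1 : IsCoprime (l : OO) p.n := by
    by_contra hc
    have hne : Ideal.span {(l : OO), p.n} ≠ ⊤ := by
      intro h
      apply hc
      have h2 : (1 : OO) ∈ Ideal.span {(l : OO), p.n} := by rw [h]; trivial
      obtain ⟨a, b, hab⟩ := Ideal.mem_span_pair.1 h2
      exact ⟨a, b, hab⟩
    obtain ⟨P, hP, hle⟩ := Ideal.exists_le_maximal _ hne
    have hlP : (l : OO) ∈ P := hle (Ideal.subset_span (by simp))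
    have hnP : p.n ∈ P := hle (Ideal.subset_span (by simp))
    have h3 := hOCP p hp l P hl hP.isPrime hlP (fun h => hg (YDV_gcd p l h)) (Or.inl hnP)
    apply h3.2.2.2
    obtain ⟨c, rfl⟩ := hlf
    have h4 : (p.D : OO) = (l : OO) * ((D₀ : OO) * (c : OO) ^ 2 * (l : OO)) := by
      rw [hD]; push_cast; ring
    rw [h4]
    exact P.mul_mem_right _ hlP
  refine ⟨h1, ?_⟩
  obtain ⟨a, b, hab⟩ := h1
  refine ⟨star a, star b, ?_⟩
  have h2 := congrArg star hab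
  rw [star_add, star_mul', star_mul', star_one, star_natCast] at h2
  exact h2

section ctx

variable {D₀ : ℤ} {F : Type} [Field F] [NumberField F]

lemma YDV_sw (C : Ctx D₀ F) : C.σ C.w = C.ι (ph - 1) * C.w := by
  have h1 := C.σw
  have h2 : C.ι (ph - 1) * C.w = C.ι (ph * (ph - 1)) * C.σ C.w := by
    rw [← h1, map_mul, map_sub, map_one]
    rw [h1]
    have h3 : C.ι ph * C.σ C.w = C.w := h1
    linear_combination (-(C.ι ph - 1)) * h3
  rw [h2, YDV_ph1, map_one, one_mul]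

lemma YDV_ssw (C : Ctx D₀ F) : C.σ (C.σ C.w) = -C.w := by
  rw [YDV_sw, map_mul, C.σι, YDV_sw, ← mul_assoc, ← map_mul, YDV_ph2, map_neg, map_one]
  ring

lemma YDV_ww (C : Ctx D₀ F) : C.w ^ 2 = C.ι (-(w2 * (D₀ : OO))) := by
  rw [C.ww, map_neg, map_mul, map_intCast]

/-- the order of conductor `f` -/
def YDV_R (C : Ctx D₀ F) (f : ℕ) (x : 𝓞 F) : Prop :=
  ∃ u v : OO, x = C.ι u + C.ι v * (f : 𝓞 F) * C.w

lemma YDV_R_mul (C : Ctx D₀ F) (f : ℕ) {x y : 𝓞 F} (hx : YDV_R C f x) (hy : YDV_R C f y) :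
    YDV_R C f (x * y) := by
  obtain ⟨u, v, rfl⟩ := hx
  obtain ⟨u', v', rfl⟩ := hy
  refine ⟨u * u' + v * v' * (f : OO) ^ 2 * (-(w2 * (D₀ : OO))), u * v' + v * u', ?_⟩
  have h := YDV_ww C
  rw [map_add, map_add, map_mul, map_mul C.ι _ (-(w2 * (D₀ : OO))), ← h, map_mul, map_mul, map_mul,
    map_mul, map_pow, map_natCast]
  ring

lemma YDV_R_sigma (C : Ctx D₀ F) (f : ℕ) {x : 𝓞 F} (hx : YDV_R C f x) : YDV_R C f (C.σ x) := by
  obtain ⟨u, v, rfl⟩ := hx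
  refine ⟨star u, star v * (ph - 1), ?_⟩
  rw [map_add, map_mul, map_mul, C.σι, C.σι, map_natCast, YDV_sw, map_mul]
  ring

lemma YDV_R_th (C : Ctx D₀ F) (f : ℕ) (p : Pt) : YDV_R C f (th C f p) := ⟨p.X, 25 * p.k, rfl⟩

end ctx

theorem YDV (h1 : TRA_stmt) (h2 : TID_stmt) (h3 : OCP_stmt) (h4 : GDV_stmt) : YDV_stmt := by
  intro D₀ F _ _ C p q f hD₀ hp hq hpD hqD hct z hz hzz a b hab l e hl he hlf hlg
  have hlf1 : l ∣ f := (dvd_pow_self l (by omega)).trans hlf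
  obtain ⟨cp, cp'⟩ := YDV_cop h3 p hp D₀ f hpD l hl hlf1 hlg
  obtain ⟨cq, cq'⟩ := YDV_cop h3 q hq D₀ f hqD l hl hlf1 (by rw [← hct]; exact hlg)
  have hcg : IsCoprime (l : OO) (ct p : OO) :=
    Nat.Coprime.cast ((Nat.Prime.coprime_iff_not_dvd hl).2 hlg)
  have hww := YDV_ww C
  set W : OO := -(w2 * (D₀ : OO)) with hW
  -- second claim
  have hB : (l : OO) ^ e ∣ b * (5 * a ^ 4 + 10 * a ^ 2 * b ^ 2 * W + b ^ 4 * W ^ 2) := by
    set Th := C.σ (C.σ (th C f p)) * th C f q with hTh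
    have hR : YDV_R C f Th :=
      YDV_R_mul C f (YDV_R_sigma C f (YDV_R_sigma C f (YDV_R_th C f p))) (YDV_R_th C f q)
    obtain ⟨u, v, huv⟩ := YDV_R_mul C f (YDV_R_mul C f hR hR) (YDV_R_sigma C f hR)
    have hz' : z ^ 5 * (ct p : 𝓞 F) ^ 5 * (C.ι (star p.n * star q.n)) ^ 2 =
        C.ι u + C.ι v * (f : 𝓞 F) * C.w := by
      rw [← huv, ← pow_two]
      exact hz
    have h5 : (10 * z) ^ 5 = C.ι (a ^ 5 + 10 * a ^ 3 * b ^ 2 * W + 5 * a * b ^ 4 * W ^ 2) +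
        C.ι (b * (5 * a ^ 4 + 10 * a ^ 2 * b ^ 2 * W + b ^ 4 * W ^ 2)) * C.w := by
      rw [hab]
      simp only [map_add, map_mul, map_pow, map_ofNat]
      generalize C.ι a = x
      generalize C.ι b = y
      generalize C.ι W = c at hww
      linear_combination (10 * x ^ 3 * y ^ 2 + 10 * x ^ 2 * y ^ 3 * C.w + 5 * x * y ^ 4 * (C.w ^ 2 + c) +
        y ^ 5 * C.w * (C.w ^ 2 + c)) * hww
    set A := a ^ 5 + 10 * a ^ 3 * b ^ 2 * W + 5 * a * b ^ 4 * W ^ 2 with hA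
    set B := b * (5 * a ^ 4 + 10 * a ^ 2 * b ^ 2 * W + b ^ 4 * W ^ 2) with hBd
    have h6 := C.ind (A * (ct p : OO) ^ 5 * (star p.n * star q.n) ^ 2 - 10 ^ 5 * u)
      (B * (ct p : OO) ^ 5 * (star p.n * star q.n) ^ 2 - 10 ^ 5 * v * (f : OO)) (by
        simp only [map_sub, map_mul, map_pow, map_natCast, map_ofNat]
        simp only [map_mul] at hz'
        linear_combination (-((ct p : 𝓞 F) ^ 5 * (C.ι (star p.n) * C.ι (star q.n)) ^ 2)) * h5 +
          (10 : 𝓞 F) ^ 5 * hz')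
    have h7 : B * ((ct p : OO) ^ 5 * (star p.n * star q.n) ^ 2) = (f : OO) * (10 ^ 5 * v) := by
      have := h6.2
      linear_combination this
    have h8 : (l : OO) ^ e ∣ B * ((ct p : OO) ^ 5 * (star p.n * star q.n) ^ 2) := by
      rw [h7]
      have h9 : (l : OO) ^ e ∣ (f : OO) := by
        rw [← Nat.cast_pow]
        exact Nat.cast_dvd_cast hlf
      exact dvd_mul_of_dvd_left h9 _
    refine IsCoprime.dvd_of_dvd_mul_right ?_ h8
    exact IsCoprime.mul_right (hcg.pow) ((cp'.mul_right cq').pow)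
  refine ⟨cp, hB, ?_⟩
  intro hlb
  -- third claim
  have h10 : 10 * C.σ (C.σ z) = C.ι a - C.ι b * C.w := by
    have h := congrArg (fun x => C.σ (C.σ x)) hab
    simp only [map_mul, map_add, map_ofNat, C.σι, star_star, YDV_ssw] at h
    rw [h]; ring
  have h11 : a ^ 2 * (ct p : OO) ^ 2 - b ^ 2 * W * (ct p : OO) ^ 2 - 100 * (p.n * q.n) = 0 := by
    refine (C.ind _ 0 ?_).1
    simp only [map_sub, map_mul, map_pow, map_natCast, map_ofNat, map_zero]
    rw [← hww]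
    simp only [map_mul] at hzz
    linear_combination (-((10 * C.σ (C.σ z)) * (ct p : 𝓞 F) ^ 2)) * hab -
      ((C.ι a + C.ι b * C.w) * (ct p : 𝓞 F) ^ 2) * h10 + 100 * hzz
  have hl2 : ¬ l ∣ 10 := by
    intro h
    have hD20 := hp.D20
    have hlD : (l : ℤ) ∣ p.D := by
      rw [hpD]
      exact Dvd.dvd.mul_left (dvd_pow (Int.natCast_dvd_natCast.2 hlf1) (by norm_num)) _
    have h12 : l = 2 ∨ l = 5 := by
      have h13 : l ∣ 2 * 5 := h
      rcases (Nat.Prime.dvd_mul hl).1 h13 with h14 | h14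
      · exact Or.inl ((Nat.prime_dvd_prime_iff_eq hl Nat.prime_two).1 h14)
      · exact Or.inr ((Nat.prime_dvd_prime_iff_eq hl Nat.prime_five).1 h14)
    rcases h12 with rfl | rfl
    · omega
    · omega
  have hc10 : IsCoprime (l : OO) (10 : OO) := by
    have := Nat.Coprime.cast (R := OO) ((Nat.Prime.coprime_iff_not_dvd hl).2 hl2)
    exact_mod_cast this
  have hc5 : IsCoprime (l : OO) (5 : OO) := by
    have h12 : ¬ l ∣ 5 := fun h => hl2 (h.trans (by norm_num))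
    have := Nat.Coprime.cast (R := OO) ((Nat.Prime.coprime_iff_not_dvd hl).2 h12)
    exact_mod_cast this
  obtain ⟨b', hb'⟩ := hlb
  have hca2 : IsCoprime (l : OO) (a * (a * (ct p : OO) ^ 2)) := by
    have h13 : IsCoprime (l : OO) (100 * (p.n * q.n)) := by
      have h14 : (100 : OO) = 10 * 10 := by norm_num
      rw [h14]
      exact (hc10.mul_right hc10).mul_right (cp.mul_right cq)
    have h15 : a * (a * (ct p : OO) ^ 2) = 100 * (p.n * q.n) + (l : OO) * (b' * b * W * (ct p : OO) ^ 2) := by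
      linear_combination h11 + (b * W * (ct p : OO) ^ 2) * hb'
    rw [h15]
    exact h13.add_mul_left_right _
  have hca : IsCoprime (l : OO) a := hca2.of_mul_right_left
  have hc6 : IsCoprime (l : OO) (5 * a ^ 4 + 10 * a ^ 2 * b ^ 2 * W + b ^ 4 * W ^ 2) := by
    have h16 : 5 * a ^ 4 + 10 * a ^ 2 * b ^ 2 * W + b ^ 4 * W ^ 2 =
        5 * a ^ 4 + (l : OO) * (b' * (10 * a ^ 2 * b * W + b ^ 3 * W ^ 2)) := by
      linear_combination (10 * a ^ 2 * b * W + b ^ 3 * W ^ 2) * hb'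
    rw [h16]
    exact (hc5.mul_right (hca.pow_right)).add_mul_left_right _
  exact IsCoprime.dvd_of_dvd_mul_right (hc6.pow_left) hB

end Pool.Agent.RF
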